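import Mathlib

set_option autoImplicit false

namespace Pool.Agent.Results.MP_e9ef01_co.DoublyExponential

/-- The colouring `c` of finite sets contains the pattern inside `{1, …, n}`. -/
def ContainsPattern (n : ℕ) {t : ℕ} (c : Finset ℕ → Fin t) : Prop :=
  ∃ i₁ i₂ i₃ i₄ i₅ i₆ : ℕ, 1 ≤ i₁ ∧ i₁ < i₂ ∧ i₂ < i₃ ∧ i₃ < i₄ ∧ i₄ < i₅ ∧ i₅ < i₆ ∧ i₆ ≤ n ∧
    c {i₁, i₂, i₃, i₅} = c {i₂, i₄, i₅, i₆}

/-- `n_t`: the least `n` such that every `t`-colouring of the 4-subsets of `{1, …, n}` contains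
the pattern (a colouring is given as a function on all finite sets of naturals; only its values on
4-subsets of `{1, …, n}` matter). -/
noncomputable def nt (t : ℕ) : ℕ := sInf {n : ℕ | ∀ c : Finset ℕ → Fin t, ContainsPattern n c}

/-! ### The colouring -/

lemma exists_h {x y : ℕ} : ∃ r, x / 2^(r+1) = y / 2^(r+1) := by
  refine ⟨x + y, ?_⟩
  have h1 : x < 2^(x+y+1) := lt_of_lt_of_le (Nat.lt_two_pow_self) (Nat.pow_le_pow_right (by norm_num) (by omega))
  have h2 : y < 2^(x+y+1) := lt_of_lt_of_le (Nat.lt_two_pow_self) (Nat.pow_le_pow_right (by norm_num) (by omega))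
  rw [Nat.div_eq_of_lt h1, Nat.div_eq_of_lt h2]

def h (x y : ℕ) : ℕ := Nat.find (exists_h (x := x) (y := y))

lemma h_spec (x y : ℕ) : x / 2^(h x y + 1) = y / 2^(h x y + 1) := Nat.find_spec (exists_h (x := x) (y := y))

lemma h_ne {x y : ℕ} (hxy : x ≠ y) : x / 2^(h x y) ≠ y / 2^(h x y) := by
  rcases Nat.eq_zero_or_pos (h x y) with h0 | h0
  · rw [h0]; simpa using hxy
  · obtain ⟨r, hr⟩ := Nat.exists_eq_add_of_lt h0
    have hr' : h x y = r + 1 := by omega
    rw [hr']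
    exact Nat.find_min (exists_h (x := x) (y := y)) (show r < h x y by omega)

lemma h_lt {x y m : ℕ} (hx : x < 2^(m+1)) (hy : y < 2^(m+1)) : h x y ≤ m := by
  apply Nat.find_min'
  rw [Nat.div_eq_of_lt hx, Nat.div_eq_of_lt hy]

lemma half (z r : ℕ) : z / 2^(r+1) = z / 2^r / 2 := by
  rw [pow_succ, Nat.div_div_eq_div_mul]

lemma key {a b c x d y : ℕ} (h1 : a < b) (h2 : b < c) (h3 : c < x) (h4 : x < d) (h5 : d < y)
    (he : h a c = h b d) : h b d ≠ h x y := by
  intro he2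
  have e1 := h_spec a c
  have e2 := h_spec b d
  have e3 := h_spec x y
  have n1 := h_ne (show a ≠ c by omega)
  have n3 := h_ne (show x ≠ y by omega)
  rw [he] at e1 n1
  rw [← he2] at e3 n3
  set r := h b d
  rw [half, half] at e1 e2 e3
  have m1 := Nat.div_le_div_right (c := 2^r) h1.le
  have m2 := Nat.div_le_div_right (c := 2^r) h2.le
  have m3 := Nat.div_le_div_right (c := 2^r) h3.le
  have m4 := Nat.div_le_div_right (c := 2^r) h4.le
  have m5 := Nat.div_le_div_right (c := 2^r) h5.le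
  omega

lemma sort4 {a b c d : ℕ} (h1 : a < b) (h2 : b < c) (h3 : c < d) :
    ({a, b, c, d} : Finset ℕ).sort (· ≤ ·) = [a, b, c, d] := by
  have hnd : [a, b, c, d].Nodup := by
    simp; omega
  have h4 : ({a, b, c, d} : Finset ℕ) = [a, b, c, d].toFinset := by
    ext z; simp
  rw [h4]
  apply (List.toFinset_sort (· ≤ ·) hnd).mpr
  simp; omega

/-- colouring given by an antichain-indexed family -/
noncomputable def col {s : ℕ} (A : ℕ → Finset (Fin s)) (a b c d : ℕ) : Fin (s+1) :=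
  open Classical in
  if hne : (A (h a c) \ A (h b d)).Nonempty then (hne.choose).succ else 0

noncomputable def colF {s : ℕ} (A : ℕ → Finset (Fin s)) (S : Finset ℕ) : Fin (s+1) :=
  match S.sort (· ≤ ·) with
  | [a, b, c, d] => col A a b c d
  | _ => 0

lemma colF_eq {s : ℕ} (A : ℕ → Finset (Fin s)) {a b c d : ℕ} (h1 : a < b) (h2 : b < c) (h3 : c < d) :
    colF A {a, b, c, d} = col A a b c d := by
  unfold colF
  rw [sort4 h1 h2 h3]

lemma no_pattern {s m : ℕ} (A : ℕ → Finset (Fin s))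
    (hA : ∀ u v, u ≤ m → v ≤ m → u ≠ v → (A u \ A v).Nonempty) :
    ¬ ContainsPattern (2^(m+1) - 1) (colF A) := by
  rintro ⟨a, b, c, x, d, y, h0, h1, h2, h3, h4, h5, h6, he⟩
  rw [colF_eq A h1 h2 (by omega), colF_eq A (by omega) h4 h5] at he
  have hp : 0 < 2^(m+1) := by positivity
  have lu : h a c ≤ m := h_lt (by omega) (by omega)
  have lv : h b d ≤ m := h_lt (by omega) (by omega)
  have lw : h x y ≤ m := h_lt (by omega) (by omega)
  by_cases e1 : h a c = h b d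
  · have e2 := key h1 h2 h3 h4 h5 e1
    have h7 : ¬ (A (h a c) \ A (h b d)).Nonempty := by rw [e1]; simp
    unfold col at he
    rw [dif_neg h7, dif_pos (hA _ _ lv lw e2)] at he
    exact absurd he.symm (Fin.succ_ne_zero _)
  · unfold col at he
    rw [dif_pos (hA _ _ lu lv e1)] at he
    by_cases e2 : h b d = h x y
    · have h7 : ¬ (A (h b d) \ A (h x y)).Nonempty := by rw [e2]; simp
      rw [dif_neg h7] at he
      exact absurd he (Fin.succ_ne_zero _)
    · rw [dif_pos (hA _ _ lv lw e2)] at he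
      have h8 := (hA _ _ lu lv e1).choose_spec
      have h9 := (hA _ _ lv lw e2).choose_spec
      rw [Fin.succ_inj] at he
      rw [Finset.mem_sdiff] at h8 h9
      rw [he] at h8
      exact h8.2 h9.1

lemma exists_A (s m : ℕ) (hm : m + 1 ≤ s.choose (s/2)) : ∃ A : ℕ → Finset (Fin s),
    ∀ u v, u ≤ m → v ≤ m → u ≠ v → (A u \ A v).Nonempty := by
  classical
  have hcard : (Finset.powersetCard (s/2) (Finset.univ : Finset (Fin s))).card = s.choose (s/2) := by
    rw [Finset.card_powersetCard, Finset.card_univ, Fintype.card_fin]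
  let e := (Finset.powersetCard (s/2) (Finset.univ : Finset (Fin s))).equivFin.symm
  refine ⟨fun u => if hu : u < (Finset.powersetCard (s/2) (Finset.univ : Finset (Fin s))).card
    then (e ⟨u, hu⟩ : Finset (Fin s)) else ∅, ?_⟩
  intro u v hu hv huv
  have hu' : u < (Finset.powersetCard (s/2) (Finset.univ : Finset (Fin s))).card := by omega
  have hv' : v < (Finset.powersetCard (s/2) (Finset.univ : Finset (Fin s))).card := by omega
  simp only [dif_pos hu', dif_pos hv']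
  rw [Finset.sdiff_nonempty]
  intro hsub
  have c1 := (Finset.mem_powersetCard.mp (e ⟨u, hu'⟩).2).2
  have c2 := (Finset.mem_powersetCard.mp (e ⟨v, hv'⟩).2).2
  have h3 := Finset.eq_of_subset_of_card_le hsub (by rw [c1, c2])
  have h4 := e.injective (Subtype.ext h3)
  exact huv (by simpa using h4)

lemma mono {n n' t : ℕ} (hn : n ≤ n') {c : Finset ℕ → Fin t} (hc : ContainsPattern n c) :
    ContainsPattern n' c := by
  obtain ⟨a, b, c', x, d, y, h0, h1, h2, h3, h4, h5, h6, he⟩ := hc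
  exact ⟨a, b, c', x, d, y, h0, h1, h2, h3, h4, h5, h6.trans hn, he⟩

/-- lower bound: a colouring of the 4-subsets of `{1,…,2^C(s,⌊s/2⌋) - 1}` with `s+1` colours -/
lemma lower (s : ℕ) : ∃ c : Finset ℕ → Fin (s+1), ¬ ContainsPattern (2^(s.choose (s/2)) - 1) c := by
  have hpos : 0 < s.choose (s/2) := Nat.choose_pos (Nat.div_le_self _ _)
  obtain ⟨m, hm⟩ : ∃ m, s.choose (s/2) = m + 1 := ⟨_, (Nat.succ_pred_eq_of_pos hpos).symm⟩
  obtain ⟨A, hA⟩ := exists_A s m hm.ge
  exact ⟨colF A, by rw [hm]; exact no_pattern A hA⟩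

/-! ### Upper bound -/

lemma upper (t : ℕ) (c : Finset ℕ → Fin t) :
    ContainsPattern (2 * (Nat.card (LowerSet (Finset (Fin t))) + 1)) c := by
  classical
  by_contra hno
  let χ : ℕ → ℕ → ℕ → Fin t := fun i j k => c {2*i-1, 2*j-1, 2*j, 2*k}
  have hχ : ∀ i j k l, 1 ≤ i → i < j → j < k → k < l →
      l ≤ Nat.card (LowerSet (Finset (Fin t))) + 1 → χ i j k ≠ χ j k l := by
    intro i j k l h1 h2 h3 h4 h5 he
    exact hno ⟨2*i-1, 2*j-1, 2*j, 2*k-1, 2*k, 2*l, by omega, by omega, by omega, by omega, by omega,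
      by omega, by omega, he⟩
  let A : ℕ → ℕ → Finset (Fin t) := fun j k => (Finset.Ico 1 j).image fun i => χ i j k
  let D : ℕ → LowerSet (Finset (Fin t)) := fun k =>
    ⟨{B | ∃ j, 1 ≤ j ∧ j < k ∧ B ⊆ A j k}, by
      rintro B B' hBB ⟨j, h1, h2, h3⟩
      exact ⟨j, h1, h2, hBB.trans h3⟩⟩
  have hD : ∀ k l, 1 ≤ k → k < l → l ≤ Nat.card (LowerSet (Finset (Fin t))) + 1 → D k ≠ D l := by
    intro k l h1 h2 h3 he
    have hin : A k l ∈ D l := ⟨k, h1, h2, subset_rfl⟩
    rw [← he] at hin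
    obtain ⟨j, h4, h5, h6⟩ := hin
    have h7 : χ j k l ∈ A k l := Finset.mem_image.mpr ⟨j, Finset.mem_Ico.mpr ⟨h4, h5⟩, rfl⟩
    obtain ⟨i, hi, hi2⟩ := Finset.mem_image.mp (h6 h7)
    rw [Finset.mem_Ico] at hi
    exact hχ i j k l hi.1 hi.2 h5 h2 h3 hi2
  have hfin : Finite (LowerSet (Finset (Fin t))) :=
    Finite.of_injective (fun L => (L : Set (Finset (Fin t)))) SetLike.coe_injective
  let g : Fin (Nat.card (LowerSet (Finset (Fin t))) + 1) → LowerSet (Finset (Fin t)) :=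
    fun k => D (k + 1)
  have hg : Function.Injective g := by
    intro k l hkl
    by_contra hne
    rcases lt_or_gt_of_ne (fun h => hne (Fin.ext h) : (k : ℕ) ≠ l) with h1 | h1
    · exact hD (k+1) (l+1) (by omega) (by omega) (by omega) hkl
    · exact hD (l+1) (k+1) (by omega) (by omega) (by omega) hkl.symm
  have := Nat.card_le_card_of_injective g hg
  rw [Nat.card_eq_fintype_card, Fintype.card_fin] at this
  omega

lemma card_lower (t : ℕ) : Nat.card (LowerSet (Finset (Fin t))) ≤ 2^(2^t) := by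
  have h1 := Nat.card_le_card_of_injective (fun L : LowerSet (Finset (Fin t)) => (L : Set (Finset (Fin t))))
    SetLike.coe_injective
  simpa using h1

theorem bounds (t : ℕ) (ht : 1 ≤ t) :
    2 ^ ((t-1).choose ((t-1)/2)) ≤ nt t ∧
      nt t ≤ 2 * (Nat.card (LowerSet (Finset (Fin t))) + 1) ∧
      (∀ n, (∀ c : Finset ℕ → Fin t, ContainsPattern n c) ↔ nt t ≤ n) := by
  have hne : {n : ℕ | ∀ c : Finset ℕ → Fin t, ContainsPattern n c}.Nonempty := ⟨_, upper t⟩
  refine ⟨?_, Nat.sInf_le (upper t), ?_⟩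
  · obtain ⟨s, rfl⟩ : ∃ s, t = s + 1 := ⟨t - 1, by omega⟩
    rw [Nat.add_sub_cancel]
    apply le_csInf hne
    intro n hn
    by_contra hlt
    obtain ⟨c, hc⟩ := lower s
    exact hc (mono (by omega) (hn c))
  · intro n
    constructor
    · intro hn; exact Nat.sInf_le hn
    · intro hn c; exact mono hn (Nat.sInf_mem hne c)

lemma choose_ge (s : ℕ) : 2^s ≤ (s+1) * s.choose (s/2) := by
  calc 2^s = ∑ k ∈ Finset.range (s+1), s.choose k := (Nat.sum_range_choose s).symm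
    _ ≤ ∑ k ∈ Finset.range (s+1), s.choose (s/2) := Finset.sum_le_sum fun k _ => Nat.choose_le_middle k s
    _ = (s+1) * s.choose (s/2) := by simp

theorem loglog_bounds (t : ℕ) (ht : 1 ≤ t) :
    (t:ℝ) - 1 - Real.logb 2 t ≤ Real.logb 2 (Real.logb 2 (nt t)) ∧
      Real.logb 2 (Real.logb 2 (nt t)) ≤ t + 1 := by
  obtain ⟨h1, h2, _⟩ := bounds t ht
  have h3 := card_lower t
  obtain ⟨s, rfl⟩ : ∃ s, t = s + 1 := ⟨t - 1, by omega⟩
  rw [Nat.add_sub_cancel] at h1
  have hC : 1 ≤ s.choose (s/2) := Nat.choose_pos (Nat.div_le_self _ _)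
  have hn1 : (2:ℝ) ^ (s.choose (s/2)) ≤ nt (s+1) := by exact_mod_cast h1
  have hn0 : (0:ℝ) < nt (s+1) := lt_of_lt_of_le (by positivity) hn1
  have hl1 : ((s.choose (s/2) : ℕ) : ℝ) ≤ Real.logb 2 (nt (s+1)) := by
    rw [Real.le_logb_iff_rpow_le (by norm_num) hn0, Real.rpow_natCast]; exact hn1
  have hl0 : (0:ℝ) < Real.logb 2 (nt (s+1)) := lt_of_lt_of_le (by exact_mod_cast hC) hl1
  have hs0 : (0:ℝ) < ((s+1 : ℕ) : ℝ) := by positivity
  constructor
  · rw [Real.le_logb_iff_rpow_le (by norm_num) hl0]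
    have h5 : (2:ℝ) ^ ((((s+1 : ℕ) : ℝ)) - 1 - Real.logb 2 ((s+1 : ℕ) : ℝ)) = 2^s / ((s+1 : ℕ) : ℝ) := by
      rw [Real.rpow_sub (by norm_num), Real.rpow_logb (by norm_num) (by norm_num) hs0]
      congr 1
      push_cast
      rw [add_sub_cancel_right, Real.rpow_natCast]
    rw [h5]
    refine le_trans ?_ hl1
    rw [div_le_iff₀ hs0]
    have := choose_ge s
    have h6 : ((2:ℝ)^s) ≤ ((s+1 : ℕ) : ℝ) * ((s.choose (s/2) : ℕ) : ℝ) := by exact_mod_cast this
    linarith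
  · rw [Real.logb_le_iff_le_rpow (by norm_num) hl0, Real.logb_le_iff_le_rpow (by norm_num) hn0]
    have h6 : nt (s+1) ≤ 2^(2^(s+1+1)) := by
      calc nt (s+1) ≤ 2 * (Nat.card (LowerSet (Finset (Fin (s+1)))) + 1) := h2
        _ ≤ 2 * (2^(2^(s+1)) + 1) := by omega
        _ ≤ 2 * (2^(2^(s+1)) + 2^(2^(s+1))) := by
            have : 1 ≤ 2^(2^(s+1)) := Nat.one_le_two_pow
            omega
        _ = 2^(2^(s+1) + 2) := by rw [pow_add]; ring
        _ ≤ 2^(2^(s+1+1)) := by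
            apply Nat.pow_le_pow_right (by norm_num)
            have : 2 ≤ 2^(s+1) := by
              calc 2 = 2^1 := by norm_num
                _ ≤ 2^(s+1) := Nat.pow_le_pow_right (by norm_num) (by omega)
            rw [pow_succ 2 (s+1)]; omega
    have h7 : ((2:ℝ) ^ ((2:ℝ) ^ ((((s+1 : ℕ) : ℝ)) + 1))) = ((2^(2^(s+1+1)) : ℕ) : ℝ) := by
      have : (((s+1 : ℕ) : ℝ)) + 1 = ((s+1+1 : ℕ) : ℝ) := by push_cast; ring
      rw [this, Real.rpow_natCast]
      have h8 : ((2:ℝ)^(s+1+1)) = ((2^(s+1+1) : ℕ) : ℝ) := by push_cast; ring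
      rw [h8, Real.rpow_natCast]
      push_cast; ring
    rw [h7]
    exact_mod_cast h6

theorem result :
    (∀ t : ℕ, 1 ≤ t →
      (∀ n, (∀ c : Finset ℕ → Fin t, ContainsPattern n c) ↔ nt t ≤ n) ∧
      2 ^ ((t-1).choose ((t-1)/2)) ≤ nt t ∧
      nt t ≤ 2 * (Nat.card (LowerSet (Finset (Fin t))) + 1)) ∧
    (∀ t : ℕ, 1 ≤ t →
      (t:ℝ) - 1 - Real.logb 2 t ≤ Real.logb 2 (Real.logb 2 (nt t)) ∧
      Real.logb 2 (Real.logb 2 (nt t)) ≤ t + 1) :=
  ⟨fun t ht => ⟨(bounds t ht).2.2, (bounds t ht).1, (bounds t ht).2.1⟩, loglog_bounds⟩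

end Pool.Agent.Results.MP_e9ef01_co.DoublyExponential
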